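import Mathlib

/-!
# Varieties of implication zroupoids that do not contain `ZM`

A variety of implication zroupoids does not contain the variety `ZM` (given by `x → y ≈ 0`) if and only
if it satisfies the identity `x'' ≈ x`.  Hence, if two varieties do not contain `ZM`, then neither does
their join: the lattice of varieties of implication zroupoids is `0`-distributive.
-/

set_option autoImplicit false

namespace Pool.Agent.Results.MP_5bed1d_al.OmittingZM

/-- An implication zroupoid: an algebra `⟨A; →, 0⟩` with the identities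
`(x → y) → z ≈ ((z' → x) → (y → z)')'` and `0'' ≈ 0`, where `u' = u → 0`. -/
structure IZ : Type 1 where
  /-- the carrier -/
  carrier : Type
  /-- the operation `→` -/
  imp : carrier → carrier → carrier
  /-- the constant `0` -/
  zero : carrier
  /-- `(x → y) → z ≈ ((z' → x) → (y → z)')'` -/
  ax : ∀ x y z : carrier,
    imp (imp x y) z = imp (imp (imp (imp z zero) x) (imp (imp y z) zero)) zero
  /-- `0'' ≈ 0` -/
  ax0 : imp (imp zero zero) zero = zero

/-- Terms in the variables `x_0, x_1, …` -/
inductive Term
  | var (n : ℕ)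
  | zero
  | imp (s t : Term)

/-- The value of a term under a valuation of the variables. -/
def Term.eval (A : IZ) (v : ℕ → A.carrier) : Term → A.carrier
  | .var n => v n
  | .zero => A.zero
  | .imp s t => A.imp (s.eval A v) (t.eval A v)

/-- `A` satisfies the identity `s ≈ t`. -/
def Sat (A : IZ) (e : Term × Term) : Prop := ∀ v : ℕ → A.carrier, e.1.eval A v = e.2.eval A v

/-- A variety of implication zroupoids: the class of all implication zroupoids which satisfy all the
identities of some set `E`. -/
def IsVariety (X : Set IZ) : Prop := ∃ E : Set (Term × Term), ∀ A, A ∈ X ↔ ∀ e ∈ E, Sat A e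

/-- The varieties of implication zroupoids, ordered by inclusion. -/
abbrev Variety : Type 1 := {X : Set IZ // IsVariety X}

/-- The join: the class of all implication zroupoids that satisfy all identities which hold in all
members of `X` and in all members of `Y` (the variety generated by the union). -/
def join (X Y : Variety) : Variety :=
  ⟨{A | ∀ e, (∀ B ∈ X.1, Sat B e) → (∀ B ∈ Y.1, Sat B e) → Sat A e},
    {e | (∀ B ∈ X.1, Sat B e) ∧ ∀ B ∈ Y.1, Sat B e}, fun _ =>
      ⟨fun h e he => h e he.1 he.2, fun h e h1 h2 => h e ⟨h1, h2⟩⟩⟩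

/-- The variety `ZM`: the implication zroupoids that satisfy `x → y ≈ 0`. -/
def ZM : Variety :=
  ⟨{A | ∀ a b : A.carrier, A.imp a b = A.zero}, {(.imp (.var 0) (.var 1), .zero)}, fun A => by
    constructor
    · intro h e he
      rw [Set.mem_singleton_iff] at he
      subst he
      intro v
      exact h _ _
    · intro h a b
      exact h _ rfl (fun n => if n = 0 then a else b)⟩

section
variable {A : Type} (i : A → A → A) (o : A)
  (h1 : ∀ x y z, i (i x y) z = i (i (i (i z o) x) (i (i y z) o)) o)
  (h2 : i (i o o) o = o)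

include h1 h2 in
/-- `x'''' ≈ x''` in every implication zroupoid -/
theorem four (x : A) : i (i (i (i x o) o) o) o = i (i x o) o := by
  grind (splits := 0) (gen := 12) (ematch := 12)

end

theorem IZ.four (A : IZ) (x : A.carrier) :
    A.imp (A.imp (A.imp (A.imp x A.zero) A.zero) A.zero) A.zero =
      A.imp (A.imp x A.zero) A.zero :=
  OmittingZM.four A.imp A.zero A.ax A.ax0 x

/-- if every element is of the form `(x → y) → z`, then `x'' = x` -/
theorem two_of_form (A : IZ) (h : ∀ a : A.carrier, ∃ x y z, a = A.imp (A.imp x y) z)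
    (a : A.carrier) : A.imp (A.imp a A.zero) A.zero = a := by
  have hs : ∀ a : A.carrier, ∃ b, a = A.imp b A.zero := by
    intro a
    obtain ⟨x, y, z, h1⟩ := h a
    exact ⟨_, h1.trans (A.ax x y z)⟩
  obtain ⟨b, hb⟩ := hs a
  obtain ⟨c, hc⟩ := hs b
  rw [hb, hc, A.four]

/-- the identity `x ≈ t(x)` for a term `t` which is not a variable implies `x'' ≈ x` -/
theorem two_of_term (A : IZ) (t : Term) (ht : ∀ n, t ≠ .var n)
    (h : ∀ a : A.carrier, a = t.eval A (fun _ => a)) (a : A.carrier) :
    A.imp (A.imp a A.zero) A.zero = a := by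
  apply two_of_form
  intro a
  cases t with
  | var n => exact absurd rfl (ht n)
  | zero =>
    refine ⟨A.zero, A.zero, A.zero, ?_⟩
    rw [A.ax0]
    exact h a
  | imp p q =>
    have h' : ∀ a : A.carrier, a = A.imp (p.eval A (fun _ => a)) (q.eval A (fun _ => a)) := h
    cases p with
    | var n =>
      refine ⟨a, q.eval A (fun _ => a), q.eval A (fun _ => a), ?_⟩
      have h3 : a = A.imp a (q.eval A (fun _ => a)) := h' a
      rw [← h3, ← h3]
    | zero =>
      refine ⟨A.imp A.zero A.zero, A.zero, q.eval A (fun _ => a), ?_⟩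
      rw [A.ax0]
      exact h' a
    | imp p1 p2 => exact ⟨_, _, _, h' a⟩

/-- a term that is not a variable has the value `0` in the algebras of `ZM` -/
theorem eval_ZM {A : IZ} (hA : A ∈ ZM.1) (t : Term) (ht : ∀ n, t ≠ .var n) (v : ℕ → A.carrier) :
    t.eval A v = A.zero := by
  cases t with
  | var n => exact absurd rfl (ht n)
  | zero => rfl
  | imp p q => exact hA _ _

/-- the two-element member of `ZM` -/
def zmTwo : IZ where
  carrier := Bool
  imp _ _ := false
  zero := false
  ax _ _ _ := rfl
  ax0 := rfl

theorem two_of_not_ZM (X : Variety) (h : ¬ ZM ≤ X) (A : IZ) (hA : A ∈ X.1) (a : A.carrier) :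
    A.imp (A.imp a A.zero) A.zero = a := by
  obtain ⟨X, E, hE⟩ := X
  have h1 : ∃ B ∈ ZM.1, ∃ e ∈ E, ¬ Sat B e := by
    by_contra h2
    push Not at h2
    exact h fun B hB => (hE B).2 fun e he => h2 B hB e he
  obtain ⟨B, hB, ⟨s, t⟩, he, hne⟩ := h1
  have hsat : Sat A (s, t) := (hE A).1 hA _ he
  by_cases hs : ∀ n, s ≠ .var n
  · by_cases ht : ∀ n, t ≠ .var n
    · exfalso
      apply hne
      intro v
      exact (eval_ZM hB s hs v).trans (eval_ZM hB t ht v).symm
    · push Not at ht
      obtain ⟨n, rfl⟩ := ht
      exact two_of_term A s hs (fun a => (hsat fun _ => a).symm) a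
  · push Not at hs
    obtain ⟨n, rfl⟩ := hs
    by_cases ht : ∀ n, t ≠ .var n
    · exact two_of_term A t ht (fun a => hsat fun _ => a) a
    · push Not at ht
      obtain ⟨m, rfl⟩ := ht
      have hnm : n ≠ m := by
        rintro rfl
        exact hne fun v => rfl
      have h3 : ∀ a b : A.carrier, a = b := by
        intro a b
        have := hsat fun k => if k = n then a else b
        simpa [Term.eval, hnm.symm] using this
      exact h3 _ _

theorem not_ZM_of_two (X : Variety)
    (h : ∀ A ∈ X.1, ∀ a : A.carrier, A.imp (A.imp a A.zero) A.zero = a) : ¬ ZM ≤ X := by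
  intro h1
  have h2 : zmTwo ∈ ZM.1 := fun _ _ => rfl
  have h3 := h zmTwo (h1 h2) true
  exact Bool.false_ne_true h3

theorem isLUB_join (X Y : Variety) : IsLUB {X, Y} (join X Y) := by
  constructor
  · intro Z hZ
    rcases hZ with rfl | hZ
    · intro A hA e h1 _
      exact h1 A hA
    · rw [Set.mem_singleton_iff] at hZ
      subst hZ
      intro A hA e _ h2
      exact h2 A hA
  · intro Z hZ A hA
    obtain ⟨E, hE⟩ := Z.2
    have hX : X ≤ Z := hZ (by simp)
    have hY : Y ≤ Z := hZ (by simp)
    exact (hE A).2 fun e he => hA e (fun B hB => (hE B).1 (hX hB) e he)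
      fun B hB => (hE B).1 (hY hB) e he

/-- **Omitting `ZM`.**  For varieties `X`, `Y` of implication zroupoids:
1. `X` does not contain `ZM` if and only if `X` satisfies the identity `x'' ≈ x`;
2. the lattice join of `X` and `Y` is the variety `join X Y`, and if neither `X` nor `Y` contains `ZM`,
then the join does not contain `ZM`. -/
theorem result :
    (∀ X : Variety, ¬ ZM ≤ X ↔
      ∀ A ∈ X.1, ∀ a : A.carrier, A.imp (A.imp a A.zero) A.zero = a) ∧
    ∀ X Y : Variety, IsLUB {X, Y} (join X Y) ∧ (¬ ZM ≤ X → ¬ ZM ≤ Y → ¬ ZM ≤ join X Y) := by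
  refine ⟨fun X => ⟨fun h A hA a => two_of_not_ZM X h A hA a, not_ZM_of_two X⟩, fun X Y =>
    ⟨isLUB_join X Y, fun hX hY => not_ZM_of_two _ fun A hA a => ?_⟩⟩
  have h := hA (.imp (.imp (.var 0) .zero) .zero, .var 0)
    (fun B hB v => two_of_not_ZM X hX B hB (v 0)) (fun B hB v => two_of_not_ZM Y hY B hB (v 0))
  exact h fun _ => a

end Pool.Agent.Results.MP_5bed1d_al.OmittingZM
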